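import Mathlib
import Pool.Agent.H88.Amalg.Final

/-!
The group `SU(2)` is an amalgamation base for compact groups: if it is embedded in two compact Hausdorff groups `B` and `C`,
then `B` and `C` embed in a product `D` of unitary groups by embeddings which agree on `SU(2)`; if `B` and `C` are compact
Lie groups, `D` can be a unitary group `U(N)`. So `SU(2)`, a nonabelian connected compact Lie group, belongs to the class
of problem MP_f8bbe3_al.
-/

set_option autoImplicit false

namespace Pool.Agent.Results.MP_f8bbe3_al.SpecialUnitaryTwo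

open Matrix Topology
open scoped Quaternion Manifold ContDiff

/-- `SU(2)`: the unitary 2 by 2 matrices of determinant 1, with the topology of a subspace of the space of matrices. -/
abbrev SU2 : Type := Matrix.specialUnitaryGroup (Fin 2) ℂ

/-- The group of unit quaternions. -/
abbrev UnitQuaternions : Type := Metric.sphere (0 : ℍ[ℝ]) 1

/-- The topological group `G` has no small subgroups: some neighbourhood of `1` contains no subgroup except the trivial one.
All Lie groups have this property. -/
def NoSmallSubgroups (G : Type) [Group G] [TopologicalSpace G] : Prop :=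
  ∃ V ∈ 𝓝 (1 : G), ∀ H : Subgroup G, (H : Set G) ⊆ V → H = ⊥

/-- The matrix of a quaternion. -/
noncomputable def qm (q : ℍ[ℝ]) : Matrix (Fin 2) (Fin 2) ℂ :=
  !![⟨q.re, q.imI⟩, ⟨q.imJ, q.imK⟩; ⟨-q.imJ, q.imK⟩, ⟨q.re, -q.imI⟩]

theorem qm_mul (p q : ℍ[ℝ]) : qm (p * q) = qm p * qm q := by
  ext i j
  fin_cases i <;> fin_cases j <;>
    simp [qm, Matrix.mul_apply, Fin.sum_univ_two, Complex.ext_iff] <;> constructor <;> ring

theorem normSq_unit (q : UnitQuaternions) :
    (q : ℍ[ℝ]).re ^ 2 + (q : ℍ[ℝ]).imI ^ 2 + (q : ℍ[ℝ]).imJ ^ 2 + (q : ℍ[ℝ]).imK ^ 2 = 1 := by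
  have h1 : ‖(q : ℍ[ℝ])‖ = 1 := by
    have := q.2
    rwa [mem_sphere_zero_iff_norm] at this
  have h2 : Quaternion.normSq (q : ℍ[ℝ]) = 1 := by
    rw [Quaternion.normSq_eq_norm_mul_self, h1, one_mul]
  rw [← Quaternion.normSq_def']
  exact h2

theorem qm_mem (q : UnitQuaternions) : qm q ∈ Matrix.specialUnitaryGroup (Fin 2) ℂ := by
  have h := normSq_unit q
  rw [Matrix.mem_specialUnitaryGroup_iff]
  constructor
  · rw [Matrix.mem_unitaryGroup_iff]
    ext i j
    fin_cases i <;> fin_cases j <;>
      simp [qm, Matrix.mul_apply, Fin.sum_univ_two, Complex.ext_iff, Matrix.star_apply] <;>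
      (try constructor) <;> nlinarith [h]
  · rw [Matrix.det_fin_two]
    simp only [qm]
    simp [Complex.ext_iff]
    constructor <;> nlinarith [h]

/-- The homomorphism from the unit quaternions to `SU(2)`. -/
noncomputable def toSU : UnitQuaternions →* SU2 where
  toFun q := ⟨qm q, qm_mem q⟩
  map_one' := by
    apply Subtype.ext
    ext i j
    fin_cases i <;> fin_cases j <;> simp [qm, Complex.ext_iff]
  map_mul' p q := by
    apply Subtype.ext
    exact qm_mul _ _

theorem toSU_injective : Function.Injective toSU := by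
  intro p q h
  have h1 : qm p = qm q := congrArg Subtype.val h
  have h2 := congrFun (congrFun h1 0) 0
  have h3 := congrFun (congrFun h1 0) 1
  simp only [qm, Matrix.of_apply, Matrix.cons_val_zero, Matrix.cons_val_one, Matrix.cons_val',
    Matrix.cons_val_fin_one, Complex.mk.injEq] at h2 h3
  apply Subtype.ext
  exact Quaternion.ext _ _ h2.1 h2.2 h3.1 h3.2

theorem toSU_surjective : Function.Surjective toSU := by
  intro M
  obtain ⟨hU, hdet⟩ := Matrix.mem_specialUnitaryGroup_iff.mp M.2
  have h1 : (M : Matrix (Fin 2) (Fin 2) ℂ) * star (M : Matrix (Fin 2) (Fin 2) ℂ) = 1 :=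
    Matrix.mem_unitaryGroup_iff.mp hU
  have h2 : (M : Matrix (Fin 2) (Fin 2) ℂ).adjugate * (M : Matrix (Fin 2) (Fin 2) ℂ) = 1 := by
    rw [Matrix.adjugate_mul, hdet, one_smul]
  have h3 : star (M : Matrix (Fin 2) (Fin 2) ℂ) = (M : Matrix (Fin 2) (Fin 2) ℂ).adjugate := by
    calc star (M : Matrix (Fin 2) (Fin 2) ℂ)
        = (M : Matrix (Fin 2) (Fin 2) ℂ).adjugate * (M : Matrix (Fin 2) (Fin 2) ℂ) *
          star (M : Matrix (Fin 2) (Fin 2) ℂ) := by rw [h2, Matrix.one_mul]
      _ = _ := by rw [Matrix.mul_assoc, h1, Matrix.mul_one]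
  rw [Matrix.adjugate_fin_two] at h3
  have h4 := congrFun (congrFun h3 0) 0
  have h5 := congrFun (congrFun h3 1) 0
  simp only [Matrix.star_apply, Matrix.of_apply, Matrix.cons_val_zero, Matrix.cons_val_one,
    Matrix.cons_val', Matrix.cons_val_fin_one, RCLike.star_def] at h4 h5
  rw [Matrix.det_fin_two, ← h4] at hdet
  have h6 : (M : Matrix (Fin 2) (Fin 2) ℂ) 1 0 = - (starRingEnd ℂ) ((M : Matrix (Fin 2) (Fin 2) ℂ) 0 1) := by
    rw [h5, neg_neg]
  rw [h6] at hdet
  have h7 := congrArg Complex.re hdet
  simp only [Complex.sub_re, Complex.mul_re, Complex.neg_re, Complex.neg_im, Complex.conj_re,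
    Complex.conj_im, Complex.one_re] at h7
  let q : ℍ[ℝ] := ⟨((M : Matrix (Fin 2) (Fin 2) ℂ) 0 0).re, ((M : Matrix (Fin 2) (Fin 2) ℂ) 0 0).im,
    ((M : Matrix (Fin 2) (Fin 2) ℂ) 0 1).re, ((M : Matrix (Fin 2) (Fin 2) ℂ) 0 1).im⟩
  have hq : ‖q‖ = 1 := by
    rw [← sq_eq_sq₀ (norm_nonneg _) zero_le_one, one_pow, sq,
      ← Quaternion.normSq_eq_norm_mul_self, Quaternion.normSq_def']
    simp only [q]
    nlinarith [h7]
  refine ⟨⟨q, by simpa using hq⟩, ?_⟩
  apply Subtype.ext
  ext i j
  fin_cases i <;> fin_cases j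
  · simp [toSU, qm, q]
  · simp [toSU, qm, q]
  · simp [toSU, qm, q, h6, Complex.ext_iff]
  · simp [toSU, qm, q, ← h4, Complex.ext_iff]

theorem toSU_continuous : Continuous toSU := by
  apply Continuous.subtype_mk
  have hre : Continuous fun q : ℍ[ℝ] => q.re := Quaternion.continuous_re
  have hI : Continuous fun q : ℍ[ℝ] => q.imI := Quaternion.continuous_imI
  have hJ : Continuous fun q : ℍ[ℝ] => q.imJ := Quaternion.continuous_imJ
  have hK : Continuous fun q : ℍ[ℝ] => q.imK := Quaternion.continuous_imK
  have hmk : ∀ a b : UnitQuaternions → ℝ, Continuous a → Continuous b →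
      Continuous fun q => (⟨a q, b q⟩ : ℂ) := by
    intro a b ha hb
    exact Complex.equivRealProdCLM.symm.continuous.comp (ha.prodMk hb)
  refine continuous_matrix fun i j => ?_
  fin_cases i <;> fin_cases j
  · exact hmk _ _ (hre.comp continuous_subtype_val) (hI.comp continuous_subtype_val)
  · exact hmk _ _ (hJ.comp continuous_subtype_val) (hK.comp continuous_subtype_val)
  · exact hmk _ _ (hJ.comp continuous_subtype_val).neg (hK.comp continuous_subtype_val)
  · exact hmk _ _ (hre.comp continuous_subtype_val) (hI.comp continuous_subtype_val).neg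

/-- The isomorphism of topological groups of the unit quaternions and `SU(2)`. -/
noncomputable def isoSU : UnitQuaternions ≃ₜ* SU2 :=
  { MulEquiv.ofBijective toSU ⟨toSU_injective, toSU_surjective⟩ with
    continuous_toFun := toSU_continuous
    continuous_invFun := by
      exact (Continuous.homeoOfEquivCompactToT2
        (f := (MulEquiv.ofBijective toSU ⟨toSU_injective, toSU_surjective⟩).toEquiv)
        toSU_continuous).continuous_invFun }

/-- Finitely many pairs of unitary representations of `B` and `C` which agree on `SU(2)` have a direct sum with this property. -/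
theorem sum_pairs {B C : Type} [Group B] [TopologicalSpace B] [Group C] [TopologicalSpace C]
    (f : UnitQuaternions →* B) (g : UnitQuaternions →* C) (hf : Continuous f) (hg : Continuous g)
    {ι : Type} [Fintype ι] (N : ι → ℕ)
    (V : ∀ i, B →* Pool.Agent.H88.U (N i)) (W : ∀ i, C →* Pool.Agent.H88.U (N i))
    (hV : ∀ i, Continuous (V i)) (hW : ∀ i, Continuous (W i))
    (hVW : ∀ i a, V i (f a) = W i (g a)) :
    ∃ (M : ℕ) (V' : B →* Pool.Agent.H88.U M) (W' : C →* Pool.Agent.H88.U M),
      Continuous V' ∧ Continuous W' ∧ (∀ a, V' (f a) = W' (g a)) ∧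
      (∀ b, V' b = 1 → ∀ i, V i b = 1) ∧ (∀ c, W' c = 1 → ∀ i, W i c = 1) := by
  obtain ⟨M, V', hV'c, hV't, hV'1⟩ := Pool.Agent.H88.direct_sum_rep N V hV
  obtain ⟨M', W', hW'c, hW't, hW'1⟩ := Pool.Agent.H88.direct_sum_rep N W hW
  have htr : ∀ a : UnitQuaternions, Matrix.trace (V' (f a) : Pool.Agent.H88.Mat M) =
      Matrix.trace (W' (g a) : Pool.Agent.H88.Mat M') := by
    intro a
    rw [hV't, hW't]
    exact Finset.sum_congr rfl fun i _ => by rw [hVW]
  have hMM : M = M' := by
    have h1 := htr 1
    simp only [map_one, OneMemClass.coe_one, Matrix.trace_one, Fintype.card_fin] at h1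
    exact_mod_cast h1
  subst hMM
  obtain ⟨w, hw⟩ := Pool.Agent.H88.unitary_equiv_of_trace_eq (V'.comp f) (W'.comp g)
    (hV'c.comp hf) (hW'c.comp hg) htr
  refine ⟨M, V', (MulAut.conj w⁻¹).toMonoidHom.comp W', hV'c, ?_, ?_, hV'1, ?_⟩
  · have : ((MulAut.conj w⁻¹).toMonoidHom.comp W' : C → Pool.Agent.H88.U M) =
        fun c => w⁻¹ * W' c * w := by
      funext c
      simp
    rw [this]
    exact (continuous_const.mul hW'c).mul continuous_const
  · intro a
    have h1 : w * V' (f a) = W' (g a) * w := hw a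
    simp only [MonoidHom.coe_comp, Function.comp, MulEquiv.coe_toMonoidHom, MulAut.conj_apply,
      inv_inv]
    rw [mul_assoc, ← h1, inv_mul_cancel_left]
  · intro c hc
    apply hW'1
    have h2 : w⁻¹ * W' c * w = 1 := by
      have h3 : (MulAut.conj w⁻¹) (W' c) = 1 := hc
      simpa using h3
    have h4 : W' c = w * (w⁻¹ * W' c * w) * w⁻¹ := by group
    rw [h4, h2, mul_one, mul_inv_cancel]

/-- In a compact group without small subgroups, finitely many of the representations of `pair_rep` have trivial common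
kernel. -/
theorem finite_kernel {B : Type} [Group B] [TopologicalSpace B] [CompactSpace B]
    (hB : NoSmallSubgroups B) (N : {b : B // b ≠ 1} → ℕ)
    (V : ∀ b : {b : B // b ≠ 1}, B →* Pool.Agent.H88.U (N b)) (hV : ∀ b, Continuous (V b))
    (hb : ∀ b, V b b.1 ≠ 1) :
    ∃ s : Finset {b : B // b ≠ 1}, ∀ x : B, (∀ b ∈ s, V b x = 1) → x = 1 := by
  classical
  obtain ⟨O, hO, hsub⟩ := hB
  have hK : IsCompact (interior O)ᶜ := isOpen_interior.isClosed_compl.isCompact
  have hne : ∀ x ∈ (interior O)ᶜ, x ≠ 1 := by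
    rintro x hx rfl
    exact hx (mem_interior_iff_mem_nhds.mpr hO)
  obtain ⟨t, ht⟩ := hK.elim_finite_subcover (fun b : {b : B // b ≠ 1} => {x : B | V b x ≠ 1})
    (fun b => isOpen_ne_fun (hV b) continuous_const)
    (fun x hx => Set.mem_iUnion.mpr ⟨⟨x, hne x hx⟩, hb _⟩)
  refine ⟨t, fun x hx => ?_⟩
  have h1 : ((⨅ b ∈ t, (V b).ker : Subgroup B) : Set B) ⊆ O := by
    intro y hy
    by_contra hyO
    have h2 : y ∈ (interior O)ᶜ := fun h => hyO (interior_subset h)
    obtain ⟨b, hbt, hyb⟩ := by simpa using Set.mem_iUnion.mp (ht h2)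
    have h3 : y ∈ (⨅ b ∈ t, (V b).ker : Subgroup B) := hy
    simp only [Subgroup.mem_iInf, MonoidHom.mem_ker] at h3
    exact hyb.2 (h3 _ hyb.1)
  have h2 := hsub _ h1
  have h3 : x ∈ (⨅ b ∈ t, (V b).ker : Subgroup B) := by
    simp only [Subgroup.mem_iInf, MonoidHom.mem_ker]
    exact fun b hbt => hx b hbt
  rw [h2] at h3
  exact Subgroup.mem_bot.mp h3

/-- `SU(2)` is a nonabelian connected compact Lie group which is an amalgamation base for compact groups. -/
theorem result :
    -- `SU(2)` is a connected nonabelian compact Lie group: it is compact, Hausdorff, connected, not commutative, and isomorphic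
    -- as a topological group to the group of unit quaternions, which is a real Lie group of dimension 3
    (IsTopologicalGroup SU2 ∧ CompactSpace SU2 ∧ T2Space SU2 ∧ ConnectedSpace SU2 ∧
      (∃ x y : SU2, x * y ≠ y * x) ∧ Nonempty (UnitQuaternions ≃ₜ* SU2) ∧
      ∃ (_ : ChartedSpace (EuclideanSpace ℝ (Fin 3)) UnitQuaternions)
        (_ : IsManifold 𝓘(ℝ, EuclideanSpace ℝ (Fin 3)) ∞ UnitQuaternions),
        LieGroup 𝓘(ℝ, EuclideanSpace ℝ (Fin 3)) ∞ UnitQuaternions) ∧
    -- `SU(2)` is an amalgamation base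
    ∀ (B C : Type) [Group B] [TopologicalSpace B] [IsTopologicalGroup B] [CompactSpace B] [T2Space B]
      [Group C] [TopologicalSpace C] [IsTopologicalGroup C] [CompactSpace C] [T2Space C]
      (f : SU2 →* B) (g : SU2 →* C), Continuous f → Continuous g → Function.Injective f →
      Function.Injective g →
      (∃ (D : Type) (_ : Group D) (_ : TopologicalSpace D) (_ : IsTopologicalGroup D)
        (_ : CompactSpace D) (_ : T2Space D) (h : B →* D) (k : C →* D),
        IsClosedEmbedding h ∧ IsClosedEmbedding k ∧ (∀ a, h (f a) = k (g a)) ∧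
        ∃ (ι : Type) (N : ι → ℕ), Nonempty (D ≃ₜ* ∀ i, Matrix.unitaryGroup (Fin (N i)) ℂ)) ∧
      (NoSmallSubgroups B → NoSmallSubgroups C →
        ∃ (N : ℕ) (h : B →* Matrix.unitaryGroup (Fin N) ℂ) (k : C →* Matrix.unitaryGroup (Fin N) ℂ),
          IsClosedEmbedding h ∧ IsClosedEmbedding k ∧ ∀ a, h (f a) = k (g a)) := by
  obtain ⟨hconn, n, -, -, -, x₀, y₀, hxy₀⟩ := Pool.Agent.H88.lie_S3
  have hcpt : CompactSpace SU2 := isoSU.toHomeomorph.compactSpace
  have hT2 : T2Space SU2 := inferInstance
  refine ⟨⟨?_, hcpt, hT2, ?_, ⟨isoSU x₀, isoSU y₀, ?_⟩, ⟨isoSU⟩, ?_⟩, ?_⟩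
  · refine { continuous_mul := ?_, continuous_inv := ?_ }
    · exact continuous_mul
    · have h1 : (fun a : SU2 => a⁻¹) = fun a => isoSU (isoSU.symm a)⁻¹ := by
        funext a
        rw [map_inv, ContinuousMulEquiv.apply_symm_apply]
      rw [h1]
      exact isoSU.continuous.comp (continuous_inv.comp isoSU.symm.continuous)
  · exact isoSU.toHomeomorph.surjective.connectedSpace isoSU.continuous
  · intro h
    apply hxy₀
    apply isoSU.injective
    rw [map_mul, map_mul]
    exact h
  · have : Fact (Module.finrank ℝ ℍ[ℝ] = 3 + 1) := Pool.Agent.H88.fact_finrank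
    exact ⟨inferInstance, inferInstance, inferInstance⟩
  · intro B C _ _ _ _ _ _ _ _ _ _ f g hf hg hfi hgi
    let f' : ContinuousMonoidHom UnitQuaternions B :=
      ⟨f.comp isoSU.toMulEquiv.toMonoidHom, hf.comp isoSU.continuous⟩
    let g' : ContinuousMonoidHom UnitQuaternions C :=
      ⟨g.comp isoSU.toMulEquiv.toMonoidHom, hg.comp isoSU.continuous⟩
    have hf' : Function.Injective f' := hfi.comp isoSU.injective
    have hg' : Function.Injective g' := hgi.comp isoSU.injective
    have hfa : ∀ a, f' (isoSU.symm a) = f a := fun a =>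
      congrArg f (ContinuousMulEquiv.apply_symm_apply isoSU a)
    have hga : ∀ a, g' (isoSU.symm a) = g a := fun a =>
      congrArg g (ContinuousMulEquiv.apply_symm_apply isoSU a)
    choose N V W hV hW hVW hb using
      fun b : {b : B // b ≠ 1} => Pool.Agent.H88.pair_rep f' g' hf' hg' b.1 b.2
    choose N' V' W' hV' hW' hVW' hc using
      fun c : {c : C // c ≠ 1} => Pool.Agent.H88.pair_rep g' f' hg' hf' c.1 c.2
    have hcU : ∀ n, CompactSpace (Pool.Agent.H88.U n) := Pool.Agent.H88.compact_U
    constructor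
    · let NN : ({b : B // b ≠ 1} ⊕ {c : C // c ≠ 1}) → ℕ := Sum.elim N N'
      let hh : ∀ i, B →* Matrix.unitaryGroup (Fin (NN i)) ℂ := fun i =>
        match i with
        | Sum.inl b => V b
        | Sum.inr c => W' c
      let kk : ∀ i, C →* Matrix.unitaryGroup (Fin (NN i)) ℂ := fun i =>
        match i with
        | Sum.inl b => W b
        | Sum.inr c => V' c
      have hhc : ∀ i, Continuous (hh i) := by
        rintro (b | c)
        · exact hV b
        · exact hW' c
      have hkc : ∀ i, Continuous (kk i) := by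
        rintro (b | c)
        · exact hW b
        · exact hV' c
      refine ⟨∀ i, Matrix.unitaryGroup (Fin (NN i)) ℂ, inferInstance, inferInstance, inferInstance,
        @Pi.compactSpace _ _ _ (fun i => hcU (NN i)), inferInstance,
        MonoidHom.pi hh, MonoidHom.pi kk, ?_, ?_, ?_, _, NN, ⟨ContinuousMulEquiv.refl _⟩⟩
      · refine Continuous.isClosedEmbedding (continuous_pi hhc) ?_
        rw [injective_iff_map_eq_one]
        intro b hb1
        by_contra hne
        exact hb ⟨b, hne⟩ (congrFun hb1 (Sum.inl ⟨b, hne⟩))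
      · refine Continuous.isClosedEmbedding (continuous_pi hkc) ?_
        rw [injective_iff_map_eq_one]
        intro c hc1
        by_contra hne
        exact hc ⟨c, hne⟩ (congrFun hc1 (Sum.inr ⟨c, hne⟩))
      · intro a
        funext i
        rw [← hfa, ← hga]
        match i with
        | Sum.inl b => exact hVW b _
        | Sum.inr c => exact (hVW' c _).symm
    · intro hB hC
      obtain ⟨s, hs⟩ := finite_kernel hB N V hV hb
      obtain ⟨t, ht⟩ := finite_kernel hC N' V' hV' hc
      obtain ⟨M, h, k, hh, hk, hhk, hh1, hk1⟩ := sum_pairs (ι := s ⊕ t) f'.toMonoidHom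
        g'.toMonoidHom f'.continuous_toFun g'.continuous_toFun
        (Sum.elim (fun b => N b.1) (fun c => N' c.1))
        (fun i => match i with
          | Sum.inl b => V b.1
          | Sum.inr c => W' c.1)
        (fun i => match i with
          | Sum.inl b => W b.1
          | Sum.inr c => V' c.1)
        (by
          rintro (b | c)
          · exact hV b.1
          · exact hW' c.1)
        (by
          rintro (b | c)
          · exact hW b.1
          · exact hV' c.1)
        (by
          rintro (b | c) a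
          · exact hVW b.1 a
          · exact (hVW' c.1 a).symm)
      refine ⟨M, h, k, ?_, ?_, ?_⟩
      · refine Continuous.isClosedEmbedding hh ?_
        rw [injective_iff_map_eq_one]
        intro b hb1
        exact hs b fun x hx => hh1 b hb1 (Sum.inl ⟨x, hx⟩)
      · refine Continuous.isClosedEmbedding hk ?_
        rw [injective_iff_map_eq_one]
        intro c hc1
        exact ht c fun x hx => hk1 c hc1 (Sum.inr ⟨x, hx⟩)
      · intro a
        rw [← hfa, ← hga]
        exact hhk _

end Pool.Agent.Results.MP_f8bbe3_al.SpecialUnitaryTwo
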